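import Mathlib
import Pool.Agent.U218.PP.R3
import Pool.Agent.Results.MP_187c26_nt.TranslatesBoundedDegree

set_option autoImplicit false

/-!
# Rémond's inequality for groups of radicals of bounded order, uniformly in the group

All fields are subfields of `AlgebraicClosure ℚ`; `G` is the torus of dimension `n`. Let `K` be a
number field and `m ≥ 1`. There is a constant `A`, depending only on `K` and `m`, with the following
properties. Let `Δ` be any subgroup of `G(ℚ̄)` (of finite or infinite rank) such that for all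
coordinates `g` of the points of `Δ` some product `ζ g ^ m`, `ζ` a root of unity, lies in `K`, and let
`L = K(Δ)` be the field generated over `K` by these coordinates.

1. Let `V` be a translate of codimension one of a subtorus, and let `y ^ v`, `v` primitive, be the
   character which is constant on `V`, with the value `α`. Suppose that `α` is an algebraic integer
   and not a root of unity (so `V` is contained in no torsion subvariety), and let `D` be the degree
   of `α` over `L`. For every nonzero polynomial `f` over `L` which vanishes on `V` and every point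
   `y` of `V`, the sum of the `deg_i(f) h(y_i)` is at least `1 / (A (1 + log D) ^ A)`.
   So `ω_L(V) μ_ess(V) ≥ c / (1 + log D) ^ A`: this is Rémond's inequality up to a power of `log D`.
2. Let `V` be the translate of a subtorus of any codimension by a point `x` whose coordinates are
   units, which is not contained in a proper torsion subvariety, and let `D` be the degree of `x`
   over `L`. For every nonzero polynomial `f` over `ℚ̄` which vanishes on `V` and every point `y` of
   `V`, the sum of the `deg_i(f) h(y_i)` is at least `1 / (A D (1 + log D) ^ A)`.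

Method. The field generated by all `m`-th roots of the elements of the normal closure of `K(μ_m)` is
Galois over `ℚ` with a Galois group of finite exponent. So the relative Dobrowolski theorem over the
composita of such fields with `ℚ^ab` gives a lower bound for the height of an algebraic integer of
degree `D` over `L`. A polynomial over `L` which vanishes on `V` has partial degrees at least
`D |v_i|`, by the linear independence of characters.
-/

namespace Pool.Agent.Results.MP_187c26_nt.CodimensionOne

/-- the product `ζ g ^ m` lies in `K` for some root of unity `ζ` -/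
def IsBoundedRadical (K : IntermediateField ℚ (AlgebraicClosure ℚ)) (m : ℕ)
    (g : AlgebraicClosure ℚ) : Prop :=
  ∃ (ζ : AlgebraicClosure ℚ) (r : ℕ), 0 < r ∧ ζ ^ r = 1 ∧ ζ * g ^ m ∈ K

/-- `K(Δ)`, the field generated over `K` by the coordinates of the points of `Δ` -/
noncomputable def coordField (K : IntermediateField ℚ (AlgebraicClosure ℚ)) {n : ℕ}
    (Δ : Subgroup (Fin n → (AlgebraicClosure ℚ)ˣ)) : IntermediateField ℚ (AlgebraicClosure ℚ) :=
  K ⊔ IntermediateField.adjoin ℚ {y | ∃ g ∈ Δ, ∃ i, y = (g i : AlgebraicClosure ℚ)}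

/-- the translate by the point `x` of the subtorus which consists of the points
`(t^(e_1), ..., t^(e_n))`, where `t^(e_i)` is the product of the `t_j^(e_ij)` -/
def translate {n d : ℕ} (x : Fin n → AlgebraicClosure ℚ) (e : Fin n → Fin d → ℤ) :
    Set (Fin n → AlgebraicClosure ℚ) :=
  {y | ∃ t : Fin d → (AlgebraicClosure ℚ)ˣ,
    ∀ i, y i = x i * ∏ j, (t j : AlgebraicClosure ℚ) ^ e i j}

/-- `y ↦ y ^ w` is a character of the torus which is constant on the translates of the subtorus
defined by `e` -/
def ConstantOn {n d : ℕ} (e : Fin n → Fin d → ℤ) (w : Fin n → ℤ) : Prop :=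
  ∀ j, ∑ i, w i * e i j = 0

/-- the degree over `F` of the field generated over `F` by the coordinates of `x` -/
noncomputable def pointDegree (F : IntermediateField ℚ (AlgebraicClosure ℚ)) {n : ℕ}
    (x : Fin n → AlgebraicClosure ℚ) : ℕ :=
  Module.finrank F (IntermediateField.adjoin F (Set.range x))

/-- the degree of `α` over `F` -/
noncomputable def degree (F : IntermediateField ℚ (AlgebraicClosure ℚ))
    (α : AlgebraicClosure ℚ) : ℕ :=
  (minpoly F α).natDegree

lemma coordField_le {K : IntermediateField ℚ (AlgebraicClosure ℚ)} {m n : ℕ}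
    {Δ : Subgroup (Fin n → (AlgebraicClosure ℚ)ˣ)}
    (hΔ : ∀ g ∈ Δ, ∀ i, IsBoundedRadical K m (g i : AlgebraicClosure ℚ)) :
    coordField K Δ ≤ IntermediateField.adjoin ℚ (Pool.Agent.U218.PP.rad K m) := by
  refine sup_le ?_ ?_
  · intro x hx
    exact IntermediateField.subset_adjoin _ _ ⟨1, 1, one_pos, one_pow _, by
      rw [one_mul]; exact pow_mem hx m⟩
  · rw [IntermediateField.adjoin_le_iff]
    rintro y ⟨g, hg, i, rfl⟩
    exact IntermediateField.subset_adjoin _ _ (hΔ g hg i)

lemma const_value {n d : ℕ} (x : Fin n → AlgebraicClosure ℚ) (e : Fin n → Fin d → ℤ)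
    (v : Fin n → ℤ) (hv : ConstantOn e v) {y : Fin n → AlgebraicClosure ℚ}
    (hy : y ∈ translate x e) : ∏ i, y i ^ v i = ∏ i, x i ^ v i := by
  obtain ⟨t, hyt⟩ := hy
  have h2 : ∏ i, y i ^ v i = ∏ i, (x i * ∏ j, (t j : AlgebraicClosure ℚ) ^ e i j) ^ v i :=
    Finset.prod_congr rfl fun i _ => by rw [hyt i]
  rw [h2, Pool.Agent.Results.MP_187c26_nt.RadicalTranslates.mono_eval]
  have h3 : Pool.Agent.Results.MP_187c26_nt.RadicalTranslates.chi
      (fun j => ∑ i, v i * e i j) t = 1 := by
    rw [Pool.Agent.Results.MP_187c26_nt.RadicalTranslates.chi_apply]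
    exact Finset.prod_eq_one fun j _ => by rw [hv j, zpow_zero]
  rw [h3, mul_one]

lemma height_le {n d : ℕ} (x : Fin n → AlgebraicClosure ℚ) (e : Fin n → Fin d → ℤ)
    (hx : ∀ i, x i ≠ 0) (v : Fin n → ℤ) (hv : ConstantOn e v) {y : Fin n → AlgebraicClosure ℚ}
    (hy : y ∈ translate x e) : NumberField.absLogHeight₁ (∏ i, x i ^ v i) ≤
      ∑ i, |(v i : ℝ)| * NumberField.absLogHeight₁ (y i) := by
  have hht : ∀ w : AlgebraicClosure ℚ, NumberField.absLogHeight₁ w = Pool.Agent.H58P.ht w :=
    fun w => Pool.Agent.H58P.absLogHeight₁_eq _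
  simp only [hht]
  have hy0 : ∀ i, y i ≠ 0 := by
    obtain ⟨t, hyt⟩ := hy
    intro i
    rw [hyt i]
    exact mul_ne_zero (hx i) (Finset.prod_ne_zero_iff.2 fun j _ =>
      zpow_ne_zero _ (Units.ne_zero _))
  rw [← const_value x e v hv hy]
  refine (Pool.Agent.H58R.ht_prod_le _ _).trans (Finset.sum_le_sum fun i _ => ?_)
  rw [Pool.Agent.H58R.ht_zpow _ (hy0 i)]

/-- **Rémond's inequality for groups of radicals of bounded order.** -/
theorem result (K : IntermediateField ℚ (AlgebraicClosure ℚ)) (hK : FiniteDimensional ℚ K)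
    (m : ℕ) (hm : 0 < m) :
    ∃ A : ℕ, 0 < A ∧ ∀ (n : ℕ) (Δ : Subgroup (Fin n → (AlgebraicClosure ℚ)ˣ)),
      (∀ g ∈ Δ, ∀ i, IsBoundedRadical K m (g i : AlgebraicClosure ℚ)) →
      ∀ (d : ℕ) (x : Fin n → AlgebraicClosure ℚ) (e : Fin n → Fin d → ℤ), (∀ i, x i ≠ 0) →
        (∀ v : Fin n → ℤ, v ≠ 0 → (∀ w : Fin n → ℤ, ConstantOn e w ↔ ∃ k : ℤ, w = k • v) →
          IsIntegral ℤ (∏ i, x i ^ v i) → (∀ r : ℕ, 0 < r → (∏ i, x i ^ v i) ^ r ≠ 1) →
          ∀ f : MvPolynomial (Fin n) (coordField K Δ), f ≠ 0 →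
            (∀ y ∈ translate x e, MvPolynomial.aeval y f = 0) → ∀ y ∈ translate x e,
              1 / ((A : ℝ) * (1 + Real.log (degree (coordField K Δ) (∏ i, x i ^ v i))) ^ A) ≤
                ∑ i, (f.degreeOf i : ℝ) * NumberField.absLogHeight₁ (y i)) ∧
        ((∀ i, IsIntegral ℤ (x i) ∧ IsIntegral ℤ (x i)⁻¹) →
          (∀ w : Fin n → ℤ, w ≠ 0 → ConstantOn e w →
            ∀ r : ℕ, 0 < r → (∏ i, x i ^ w i) ^ r ≠ 1) →
          ∀ f : MvPolynomial (Fin n) (AlgebraicClosure ℚ), f ≠ 0 →
            (∀ y ∈ translate x e, MvPolynomial.eval y f = 0) → ∀ y ∈ translate x e,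
              1 / ((A : ℝ) * pointDegree (coordField K Δ) x *
                (1 + Real.log (pointDegree (coordField K Δ) x)) ^ A) ≤
                ∑ i, (f.degreeOf i : ℝ) * NumberField.absLogHeight₁ (y i)) := by
  have := hK
  obtain ⟨A, hA, hlow⟩ := Pool.Agent.U218.PP.lower K hm
  have hA0 : (0 : ℝ) < A := by exact_mod_cast hA
  refine ⟨A, hA, fun n Δ hΔ d x e hx => ⟨?_, ?_⟩⟩
  · intro v hv0 hv hint hr f hf hV y hy
    have hvc : ConstantOn e v := (hv v).mpr ⟨1, by rw [one_smul]⟩
    have hα0 : ∏ i, x i ^ v i ≠ 0 := Finset.prod_ne_zero_iff.2 fun i _ => zpow_ne_zero _ (hx i)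
    have h1 := hlow (coordField K Δ) (coordField_le hΔ) (∏ i, x i ^ v i) hint hα0 hr
    have h2 := Pool.Agent.U218.PP.degreeOf_ge (coordField K Δ) x e hx v hv0
      (fun w hw => (hv w).mp hw) hint.tower_top f hf hV
    have h3 := height_le x e hx v hvc hy
    set D : ℝ := ((degree (coordField K Δ) (∏ i, x i ^ v i) : ℕ) : ℝ) with hD
    have hDpos : (1 : ℝ) ≤ D := by
      have : 0 < degree (coordField K Δ) (∏ i, x i ^ v i) := minpoly.natDegree_pos hint.tower_top
      rw [hD]; exact_mod_cast this
    have hl : 0 ≤ Real.log D := Real.log_nonneg hDpos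
    have h4 : D * NumberField.absLogHeight₁ (∏ i, x i ^ v i) ≤
        ∑ i, (f.degreeOf i : ℝ) * NumberField.absLogHeight₁ (y i) := by
      refine (mul_le_mul_of_nonneg_left h3 (by linarith)).trans ?_
      rw [Finset.mul_sum]
      refine Finset.sum_le_sum fun i _ => ?_
      rw [← mul_assoc]
      refine mul_le_mul_of_nonneg_right ?_ ?_
      · have h5 := (Int.cast_le (R := ℝ)).mpr (h2 i)
        push_cast at h5
        exact h5
      · rw [Pool.Agent.H58P.absLogHeight₁_eq]
        exact Pool.Agent.H58R.ht_nonneg _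
    refine le_trans ?_ h4
    rw [div_le_iff₀ (by positivity)]
    calc (1 : ℝ) ≤ (A : ℝ) * D * (1 + Real.log D) ^ A *
          NumberField.absLogHeight₁ (∏ i, x i ^ v i) := h1
      _ = D * NumberField.absLogHeight₁ (∏ i, x i ^ v i) * (A * (1 + Real.log D) ^ A) := by ring
  · intro hu hr f hf hV y hy
    obtain ⟨v, hv0, hve, hvd⟩ :=
      Pool.Agent.Results.MP_187c26_nt.RadicalTranslates.exists_exponent x e hx f hf hV
    have hα0 : ∏ i, x i ^ v i ≠ 0 := Finset.prod_ne_zero_iff.2 fun i _ => zpow_ne_zero _ (hx i)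
    have hint : IsIntegral ℤ (∏ i, x i ^ v i) := by
      refine IsIntegral.prod _ fun i _ => ?_
      rcases Int.natAbs_eq (v i) with h | h
      · rw [h, zpow_natCast]; exact (hu i).1.pow _
      · rw [h, zpow_neg, zpow_natCast, ← inv_pow]; exact (hu i).2.pow _
    have h1 := hlow (coordField K Δ) (coordField_le hΔ) (∏ i, x i ^ v i) hint hα0 (hr v hv0 hve)
    have h3 := height_le x e hx v hve hy
    have h2 : (minpoly (coordField K Δ) (∏ i, x i ^ v i)).natDegree ≤
        pointDegree (coordField K Δ) x :=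
      Pool.Agent.Results.MP_187c26_nt.TranslatesBoundedDegree.natDegree_le_pointDegree _ x v
    set D' : ℝ := (((minpoly (coordField K Δ) (∏ i, x i ^ v i)).natDegree : ℕ) : ℝ) with hD'
    set D : ℝ := ((pointDegree (coordField K Δ) x : ℕ) : ℝ) with hD
    have hD'pos : (1 : ℝ) ≤ D' := by
      have : 0 < (minpoly (coordField K Δ) (∏ i, x i ^ v i)).natDegree :=
        minpoly.natDegree_pos hint.tower_top
      rw [hD']; exact_mod_cast this
    have hDD : D' ≤ D := by rw [hD, hD']; exact_mod_cast h2
    have hl : 0 ≤ Real.log D' := Real.log_nonneg hD'pos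
    have hl2 : Real.log D' ≤ Real.log D := Real.log_le_log (by linarith) hDD
    have hl3 : 0 ≤ Real.log D := hl.trans hl2
    have hD0 : 0 < D := by linarith
    have h4 : NumberField.absLogHeight₁ (∏ i, x i ^ v i) ≤
        ∑ i, (f.degreeOf i : ℝ) * NumberField.absLogHeight₁ (y i) := by
      refine h3.trans (Finset.sum_le_sum fun i _ => ?_)
      refine mul_le_mul_of_nonneg_right ?_ ?_
      · have h6 : ((|v i| : ℤ) : ℝ) ≤ ((f.degreeOf i : ℤ) : ℝ) := by exact_mod_cast hvd i
        rw [Int.cast_abs] at h6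
        exact_mod_cast h6
      · rw [Pool.Agent.H58P.absLogHeight₁_eq]
        exact Pool.Agent.H58R.ht_nonneg _
    refine le_trans ?_ h4
    have hh0 : 0 ≤ NumberField.absLogHeight₁ (∏ i, x i ^ v i) := by
      rw [Pool.Agent.H58P.absLogHeight₁_eq]
      exact Pool.Agent.H58R.ht_nonneg _
    rw [div_le_iff₀ (by positivity)]
    calc (1 : ℝ) ≤ (A : ℝ) * D' * (1 + Real.log D') ^ A *
          NumberField.absLogHeight₁ (∏ i, x i ^ v i) := h1
      _ ≤ (A : ℝ) * D * (1 + Real.log D) ^ A * NumberField.absLogHeight₁ (∏ i, x i ^ v i) := by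
          gcongr
      _ = NumberField.absLogHeight₁ (∏ i, x i ^ v i) * (A * D * (1 + Real.log D) ^ A) := by ring

end Pool.Agent.Results.MP_187c26_nt.CodimensionOne
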