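import Mathlib
import Pool.Agent.U218.EE.Main

/-!
# A relative Lehmer bound for groups of positive rank on supersingular elliptic curves

Let `W` be an elliptic curve over a number field `K`, which has potentially good, supersingular
reduction at a prime `𝔭` of `K` above the prime number `p`. Let `B` and `n ≥ 1` be integers. There is a
constant `C` with the following property.

Let `E` be a finite or infinite Galois extension of `K` such that, in the Galois group of every finite
Galois extension of `K` in `E`, the `n`-th powers of the elements of the decomposition groups above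
`𝔭` have at most `B` conjugates (for instance `B = 1`, if the `n`-th powers of all automorphisms of
`E` are central, in particular if `E` is an abelian extension of `K`, with `n = 1`). Let `M` be the
field generated over `E` by the coordinates of the torsion points of `W` of order prime to `p`. Let
`Γ` be any group of points of `W` over the algebraic closure of `K`, of finite or infinite rank, such
that every `Q` in `Γ` has a multiple `m Q`, with `m` prime to `p`, which is rational over `M`. Then
`M(Γ)` is an abelian extension of `M`, and the Néron-Tate height of every point `P` of infinite order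
is at least `f (b D)`, where `f x = exp (- C * sqrt (1 + log x)) / (C * e * x)`, `e` is a bound for
the ramification indices above `𝔭` in `E`, `D` is the degree of `K(Γ)(P)` over `K(Γ)`, and `b` is the
degree of `M(P) ∩ M(Γ)` over `M`. In particular, if `M(P)` contains no abelian extension of `M`
besides `M`, then the height of `P` is at least `f D` for all these groups `Γ`.

This is the inequality which says that `Γ` is a Lehmer group, for these points `P` of the elliptic
curve `W`, up to the factor `exp (- C * sqrt (1 + log D))`. In the starting results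
`EllipticTorsionFields` and `TorsionOfSeveralCurves` the group `Γ` consists of torsion points.

Method. For `Q` in `Γ` the points `σ Q - Q` are torsion points of order prime to `p`, which are fixed
by the Galois group of `M`; so the commutators of this group fix `Γ`. By Galois theory the degree of
`M(P)` over `M` is at most `b D`. Finitely many torsion points and a finite Galois extension of `K`
in `E` generate a number field `N` over which `P` has at most the same degree as over `M`, and the
library theorem on fields generated by torsion points applies to `N`.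
-/

set_option autoImplicit false

namespace Pool.Agent.Results.MP_187c26_nt.EllipticDivisionGroups

open MvPolynomial NumberField Module Filter Topology
open IntermediateField (adjoin)
open scoped Pointwise

/-- A pair `G` of binary forms of degree `q` over the number field `k` has *good, purely
inseparable reduction* at the finite place `v`: all coefficients are `v`-integral, those of the
monomials other than `X ^ q` and `Y ^ q` are in the maximal ideal, and the determinant of the
coefficients of `X ^ q` and `Y ^ q` is a unit at `v`. -/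
def GoodInseparable {k : Type} [Field k] [NumberField k] (v : FinitePlace k) (q : ℕ)
    (G : Fin 2 → MvPolynomial (Fin 2) k) : Prop :=
  (∀ i m, v ((G i).coeff m) ≤ 1) ∧
  (∀ i m, m ≠ Finsupp.single 0 q → m ≠ Finsupp.single 1 q → v ((G i).coeff m) < 1) ∧
  v ((G 0).coeff (Finsupp.single 0 q) * (G 1).coeff (Finsupp.single 1 q) -
    (G 0).coeff (Finsupp.single 1 q) * (G 1).coeff (Finsupp.single 0 q)) = 1

/-- The pair `F` of binary forms over `K` has *potentially good, purely inseparable reduction*
above the prime ideal `𝔭` of `K`, which contains `p`: there are a number field `K'` containing `K`,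
an invertible matrix `A` over `K'` and a pair `G` of binary forms of degree `q` over `K'` with
`A ∘ F = G ∘ A`, which has good, purely inseparable reduction at a finite place `v` of `K'` above
`𝔭`. -/
def PotentiallyInseparable {K : Type} [Field K] [NumberField K] (𝔭 : Ideal (𝓞 K)) (p q : ℕ)
    (F : Fin 2 → MvPolynomial (Fin 2) K) : Prop :=
  ∃ (K' : Type) (_ : Field K') (_ : NumberField K') (_ : Algebra K K')
    (A : Matrix (Fin 2) (Fin 2) K') (G : Fin 2 → MvPolynomial (Fin 2) K') (v : FinitePlace K'),
    A.det ≠ 0 ∧ (∀ i, (G i).IsHomogeneous q) ∧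
    (∀ i, ∑ j, C (A i j) * map (algebraMap K K') (F j) =
      bind₁ (fun k => ∑ l, C (A k l) * X l) (G i)) ∧
    v.maximalIdeal.asIdeal.under (𝓞 K) = 𝔭 ∧ v (p : K') < 1 ∧ GoodInseparable v q G

/-- the map defined by a pair of forms, on coordinate vectors over an extension -/
noncomputable def evalMap {K L : Type} [Field K] [Field L] [Algebra K L]
    (F : Fin 2 → MvPolynomial (Fin 2) K) (y : Fin 2 → L) : Fin 2 → L := fun i => aeval y (F i)

/-- the coordinate vector `(x : 1)` of the first coordinate of a point of the curve `W` over `L`,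
and `(1 : 0)` for the point at infinity -/
noncomputable def xCoord {L : Type} [Field L] {W : WeierstrassCurve.Affine L} :
    W.Point → Fin 2 → L
  | .zero => ![1, 0]
  | .some x _ _ => ![x, 1]

open Classical in
/-- the pair `F` of forms of degree `p ^ 2` gives the multiplication by `p` of the curve `W` on
first coordinates, `x(p P) = F(x(P))`, for the points over all number fields containing `K` -/
def IsMultiplication {K : Type} [Field K] [NumberField K] (W : WeierstrassCurve.Affine K) (p : ℕ)
    (F : Fin 2 → MvPolynomial (Fin 2) K) : Prop :=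
  (∀ i, (F i).IsHomogeneous (p ^ 2)) ∧
  ∀ (L : Type) [Field L] [NumberField L] [Algebra K L] (P : (W.baseChange L).Point),
    ∃ c : L, c ≠ 0 ∧ evalMap F (xCoord P) = c • xCoord (p • P)

/-- The elliptic curve `W` is *potentially supersingular* at the prime ideal `𝔭` of `K`, which
contains `p`: the pair of forms which gives the multiplication by `p` on first coordinates has
potentially good, purely inseparable reduction above `𝔭`. -/
def PotentiallySupersingular {K : Type} [Field K] [NumberField K] (W : WeierstrassCurve.Affine K)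
    (𝔭 : Ideal (𝓞 K)) (p : ℕ) : Prop :=
  ∃ F : Fin 2 → MvPolynomial (Fin 2) K,
    IsMultiplication W p F ∧ PotentiallyInseparable 𝔭 p (p ^ 2) F

section closure

variable {K : Type} [Field K] [NumberField K]

/-- in the Galois group of every finite Galois extension `E₀` of `K` in `E`, the `n`-th powers of the
elements of the decomposition groups above `𝔭` have at most `B` conjugates -/
def LocalPowersHaveFewConjugates (𝔭 : Ideal (𝓞 K)) (B n : ℕ)
    (E : IntermediateField K (AlgebraicClosure K)) : Prop :=
  ∀ E₀ : IntermediateField K (AlgebraicClosure K), FiniteDimensional K E₀ → IsGalois K E₀ →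
    E₀ ≤ E → ∀ 𝔓 : Ideal (𝓞 E₀), 𝔓.IsMaximal → 𝔓.LiesOver 𝔭 → ∀ σ : Gal(E₀/K), σ • 𝔓 = 𝔓 →
    (Set.range fun g : Gal(E₀/K) => g * σ ^ n * g⁻¹).ncard ≤ B

/-- the ramification indices above `𝔭` of the finite Galois extensions of `K` in `E` are at
most `e` -/
def RamificationAtMost (𝔭 : Ideal (𝓞 K)) (e : ℕ)
    (E : IntermediateField K (AlgebraicClosure K)) : Prop :=
  ∀ E₀ : IntermediateField K (AlgebraicClosure K), FiniteDimensional K E₀ → IsGalois K E₀ →
    E₀ ≤ E → ∀ 𝔓 : Ideal (𝓞 E₀), 𝔓.IsMaximal → 𝔓.LiesOver 𝔭 → 𝔓.ramificationIdx (𝓞 K) ≤ e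

/-- the set of the coordinates of a point (empty for the point at infinity) -/
def coordinates {F : Type} [Field F] {V : WeierstrassCurve.Affine F} : V.Point → Set F
  | .zero => ∅
  | .some x y _ => {x, y}

open Classical in
/-- the set of the coordinates of the points of the group `Γ` -/
def coordinatesOf {W : WeierstrassCurve.Affine K}
    (Γ : AddSubgroup (W.baseChange (AlgebraicClosure K)).Point) : Set (AlgebraicClosure K) :=
  {t | ∃ Q ∈ Γ, t ∈ coordinates Q}

open Classical in
/-- `M`, the field generated over `E` by the coordinates of the torsion points of order prime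
to `p` -/
noncomputable def torsionField (W : WeierstrassCurve.Affine K) (p : ℕ)
    (E : IntermediateField K (AlgebraicClosure K)) :
    IntermediateField K (AlgebraicClosure K) :=
  adjoin K ((E : Set (AlgebraicClosure K)) ∪
    {t | ∃ Q : (W.baseChange (AlgebraicClosure K)).Point,
      (∃ m : ℕ, m.Coprime p ∧ m • Q = 0) ∧ t ∈ coordinates Q})

open Classical in
/-- some multiple `m Q` of the point `Q`, with `m` prime to `p`, is rational over the field `M` -/
def HasRationalMultiple {W : WeierstrassCurve.Affine K} (p : ℕ)
    (M : IntermediateField K (AlgebraicClosure K))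
    (Q : (W.baseChange (AlgebraicClosure K)).Point) : Prop :=
  ∃ m : ℕ, m.Coprime p ∧ ∀ t ∈ coordinates (m • Q), t ∈ M

open Classical in
/-- `[K(Γ)(P) : K(Γ)]` -/
noncomputable def degree {W : WeierstrassCurve.Affine K}
    (Γ : AddSubgroup (W.baseChange (AlgebraicClosure K)).Point)
    (P : (W.baseChange (AlgebraicClosure K)).Point) : ℕ :=
  finrank (adjoin K (coordinatesOf Γ)) (adjoin (adjoin K (coordinatesOf Γ)) (coordinates P))

open Classical in
/-- `[M(P) ∩ M(Γ) : M]` -/
noncomputable def commonDegree {W : WeierstrassCurve.Affine K}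
    (M : IntermediateField K (AlgebraicClosure K))
    (Γ : AddSubgroup (W.baseChange (AlgebraicClosure K)).Point)
    (P : (W.baseChange (AlgebraicClosure K)).Point) : ℕ :=
  finrank M (↥(adjoin M (coordinates P) ⊓ adjoin M (coordinatesOf Γ)))

/-- `T` is an abelian extension of `M`: it is Galois with a commutative Galois group -/
def IsAbelianExtension {M : IntermediateField K (AlgebraicClosure K)}
    (T : IntermediateField M (AlgebraicClosure K)) : Prop :=
  IsGalois M T ∧ ∀ σ τ : T ≃ₐ[M] T, σ * τ = τ * σ

/-- `M(P)` contains no abelian extension of `M` besides `M` -/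
def NoAbelianSubextension {W : WeierstrassCurve.Affine K}
    (M : IntermediateField K (AlgebraicClosure K))
    (P : (W.baseChange (AlgebraicClosure K)).Point) : Prop :=
  ∀ T : IntermediateField M (AlgebraicClosure K),
    T ≤ adjoin M (coordinates P) → IsAbelianExtension T → T = ⊥

/-- the absolute logarithmic Weil height of the first coordinate, `0` for the point at infinity -/
noncomputable def xHeight {W : WeierstrassCurve.Affine K} :
    (W.baseChange (AlgebraicClosure K)).Point → ℝ
  | .zero => 0
  | .some x _ _ => NumberField.absLogHeight₁ x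

open Classical in
/-- `h` is the Néron-Tate height (relative to the origin) of the point `P`, computed with the
multiplication by `m`: half the limit of `h(x(m ^ k P)) / m ^ (2 k)` -/
def IsNeronTateHeight {W : WeierstrassCurve.Affine K} (m : ℕ)
    (P : (W.baseChange (AlgebraicClosure K)).Point) (h : ℝ) : Prop :=
  Tendsto (fun k : ℕ => xHeight (m ^ k • P) / (2 * (m : ℝ) ^ (2 * k))) atTop (𝓝 h)

/-- the function `exp (- C * sqrt (1 + log x)) / (C * e * x)` -/
noncomputable def bound (C e x : ℝ) : ℝ :=
  Real.exp (-(C * Real.sqrt (1 + Real.log x))) / (C * e * x)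

lemma central (𝔭 : Ideal (𝓞 K)) (n : ℕ) (E : IntermediateField K (AlgebraicClosure K))
    (hE : IsGalois K E) (hcen : ∀ σ τ : E ≃ₐ[K] E, σ ^ n * τ = τ * σ ^ n) :
    LocalPowersHaveFewConjugates 𝔭 1 n E := by
  intro E₀ hfd hgal hle 𝔓 _ _ σ _
  have : Normal K (AlgebraicClosure K) := inferInstance
  have : Normal K E := hE.to_normal
  have : Normal K E₀ := hgal.to_normal
  have key : ∀ g : Gal(E₀/K), g * σ ^ n * g⁻¹ = σ ^ n := by
    intro g
    rw [mul_inv_eq_iff_eq_mul]
    obtain ⟨s, rfl⟩ := AlgEquiv.restrictNormalHom_surjective (F := K) (K₁ := E₀)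
      (AlgebraicClosure K) σ
    obtain ⟨t, rfl⟩ := AlgEquiv.restrictNormalHom_surjective (F := K) (K₁ := E₀)
      (AlgebraicClosure K) g
    rw [← map_pow, ← map_mul, ← map_mul]
    ext ⟨x, hx⟩
    have h1 : ((AlgEquiv.restrictNormalHom E₀ (t * s ^ n)) ⟨x, hx⟩ : AlgebraicClosure K) =
        (t * s ^ n) x := AlgEquiv.restrictNormal_commutes (t * s ^ n) E₀ ⟨x, hx⟩
    have h2 : ((AlgEquiv.restrictNormalHom E₀ (s ^ n * t)) ⟨x, hx⟩ : AlgebraicClosure K) =
        (s ^ n * t) x := AlgEquiv.restrictNormal_commutes (s ^ n * t) E₀ ⟨x, hx⟩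
    have h3 : ((AlgEquiv.restrictNormalHom E (t * s ^ n)) ⟨x, hle hx⟩ : AlgebraicClosure K) =
        (t * s ^ n) x := AlgEquiv.restrictNormal_commutes (t * s ^ n) E ⟨x, hle hx⟩
    have h4 : ((AlgEquiv.restrictNormalHom E (s ^ n * t)) ⟨x, hle hx⟩ : AlgebraicClosure K) =
        (s ^ n * t) x := AlgEquiv.restrictNormal_commutes (s ^ n * t) E ⟨x, hle hx⟩
    rw [h1, h2, ← h3, ← h4, map_mul, map_mul, map_pow, hcen]
  have hr : (Set.range fun g : Gal(E₀/K) => g * σ ^ n * g⁻¹) ⊆ {σ ^ n} := by
    rintro _ ⟨g, rfl⟩
    exact key g
  calc (Set.range fun g : Gal(E₀/K) => g * σ ^ n * g⁻¹).ncard ≤ ({σ ^ n} : Set _).ncard :=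
        Set.ncard_le_ncard hr (Set.finite_singleton _)
    _ = 1 := Set.ncard_singleton _

end closure

open Classical in
/-- **Main result.** -/
theorem result (K : Type) [Field K] [NumberField K] (W : WeierstrassCurve.Affine K)
    [W.IsElliptic] (p : ℕ) (hp : p.Prime) (𝔭 : Ideal (𝓞 K))
    (hss : PotentiallySupersingular W 𝔭 p) :
    (∀ (n : ℕ) (E : IntermediateField K (AlgebraicClosure K)), IsGalois K E →
      (∀ σ τ : E ≃ₐ[K] E, σ ^ n * τ = τ * σ ^ n) → LocalPowersHaveFewConjugates 𝔭 1 n E) ∧
    ∀ B n : ℕ, 1 ≤ n → ∃ C : ℝ, 0 < C ∧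
      ∀ E : IntermediateField K (AlgebraicClosure K), IsGalois K E →
      LocalPowersHaveFewConjugates 𝔭 B n E →
      ∀ Γ : AddSubgroup (W.baseChange (AlgebraicClosure K)).Point,
      (∀ Q ∈ Γ, HasRationalMultiple p (torsionField W p E) Q) →
      IsAbelianExtension (adjoin (torsionField W p E) (coordinatesOf Γ)) ∧
      ∀ P : (W.baseChange (AlgebraicClosure K)).Point, ¬ IsOfFinAddOrder P →
      ∃ h : ℝ, IsNeronTateHeight p P h ∧ ∀ e : ℕ, RamificationAtMost 𝔭 e E →
        bound C e (commonDegree (torsionField W p E) Γ P * degree Γ P) ≤ h ∧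
        (NoAbelianSubextension (torsionField W p E) P → bound C e (degree Γ P) ≤ h) := by
  refine ⟨fun n E hE hcen => central 𝔭 n E hE hcen, fun B n hn => ?_⟩
  obtain ⟨F, ⟨hF, hmul⟩, K', i1, i2, i3, A, G, v, hA, hG, hconj, hv𝔭, hv, h1, h2, h3⟩ := hss
  obtain ⟨C, hC, hmain⟩ := Pool.Agent.Y740.RL.torsion_topE W hp F hF K' A hA G hG hconj
    v hv ⟨h1, h2, h3⟩ B n hn
  have hw' : (Pool.Agent.H420R3.mi v).under (𝓞 K) = 𝔭 := hv𝔭
  rw [hw'] at hmain
  have hxc : ∀ (M : Type) [Field M] (V : WeierstrassCurve.Affine M) (Q : V.Point),
      xCoord Q = Pool.Agent.Y740.RL.xc Q := by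
    intro M _ V Q
    cases Q <;> rfl
  have hlib : Pool.Agent.U218.EE.LibBound W p 𝔭 B n C := by
    intro E N L _ _ _ _ _ _ dN dL _ _ _ _ _ _ _ _ hfew hgen P hP
    refine hmain E N L hfew ?_ ?_ hgen P hP
    · intro Q
      obtain rfl : dN = fun a b => Classical.propDecidable _ := Subsingleton.elim _ _
      obtain ⟨c, hc, hc'⟩ := hmul N Q
      rw [hxc, hxc] at hc'
      exact ⟨c, hc, hc'⟩
    · intro Q
      obtain rfl : dL = fun a b => Classical.propDecidable _ := Subsingleton.elim _ _
      obtain ⟨c, hc, hc'⟩ := hmul L Q
      rw [hxc, hxc] at hc'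
      exact ⟨c, hc, hc'⟩
  refine ⟨2 * C, by positivity, fun E hE hfew Γ hΓ => ?_⟩
  have : Normal K E := hE.to_normal
  have hfew' : Pool.Agent.U218.EE.FewInf 𝔭 E B n := by
    intro E₀ _ hle hgal
    have : FiniteDimensional K E₀ := FiniteDimensional.right ℚ K E₀
    exact hfew E₀ inferInstance hgal hle
  obtain ⟨e1, e2⟩ := Pool.Agent.U218.EE.main hC hlib E hfew' (Γ : Set _) hΓ
  refine ⟨e1, fun P hP => ?_⟩
  obtain ⟨h, f1, f2⟩ := e2 P hP
  have hC2 : ∀ e n : ℝ, 0 ≤ e → 0 ≤ n →
      bound (2 * C) e n ≤ Pool.Agent.U218.EE.bd C e n / 2 := by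
    intro e n he hn
    unfold bound Pool.Agent.U218.EE.bd
    have hexp : Real.exp (-(2 * C * Real.sqrt (1 + Real.log n))) ≤
        Real.exp (-(C * Real.sqrt (1 + Real.log n))) := by
      apply Real.exp_le_exp.mpr
      have : 0 ≤ C * Real.sqrt (1 + Real.log n) := by positivity
      linarith
    calc Real.exp (-(2 * C * Real.sqrt (1 + Real.log n))) / (2 * C * e * n) ≤
        Real.exp (-(C * Real.sqrt (1 + Real.log n))) / (2 * C * e * n) := by
          gcongr
      _ = (Real.exp (-(C * Real.sqrt (1 + Real.log n))) / (C * e * n)) / 2 := by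
          rw [div_div]
          congr 1
          ring
  refine ⟨h / 2, ?_, fun e he => ?_⟩
  · unfold IsNeronTateHeight
    refine (f1.div_const 2).congr fun k => ?_
    have hx : ∀ Q : (W.baseChange (AlgebraicClosure K)).Point,
        Pool.Agent.U218.EE.xHeight Q = xHeight Q := by
      intro Q
      cases Q <;> rfl
    rw [hx, div_div]
    congr 1
    ring
  have he' : Pool.Agent.U218.EE.RamInf 𝔭 E e := by
    intro E₀ _ hle hgal
    have : FiniteDimensional K E₀ := FiniteDimensional.right ℚ K E₀
    exact he E₀ inferInstance hgal hle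
  obtain ⟨g1, g2⟩ := f2 e he'
  refine ⟨(hC2 _ _ (by positivity) (by positivity)).trans ?_, fun hno =>
    (hC2 _ _ (by positivity) (by positivity)).trans ?_⟩
  · have f2' : Pool.Agent.U218.EE.bd C e
        (commonDegree (torsionField W p E) Γ P * degree Γ P) ≤ h := g1
    linarith
  · have f3' : Pool.Agent.U218.EE.bd C e (degree Γ P) ≤ h := g2 hno
    linarith

end Pool.Agent.Results.MP_187c26_nt.EllipticDivisionGroups
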