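import Pool.Agent.U343.Rem.Fin

set_option autoImplicit false

/-!
# Groups of rank one in `G_m^n`, `n ≥ 2`, which are not Lehmer groups

Let `n ≥ 2`, let `a = (a_1, ..., a_n)` be a point of `G_m^n` with multiplicatively independent
algebraic coordinates and let `Γ` be the group of all points a positive power of which is a power of
`a`. It has rank one and is saturated. For `m ≥ 1` let `P = (a_2^(1/m), ..., a_n^(1/m), a_1^(2/m))`.
The roots of the `a_i` are coordinates of points of `Γ`, so the coordinates of `P` are in `ℚ(Γ)` and
the obstruction index of `{P}` relative to `K(Γ)` is at most one. The height of `P` tends to zero for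
`m → ∞`. No proper `Γ`-torsion subvariety contains `P`: otherwise some character `c ≠ 0` has at `P` the
same value as at a point of `Γ`, a root of unity times `∏ a_i^(r c_i)` with a rational number `r`, and
this gives `c_i = m r c_(i+1)` for `i < n` and `2 c_n = m r c_1`, so `2 = (m r)^n`. So `Γ` is not a
Lehmer group.

The definitions (`Pool/Agent/U343/Rem/Base.lean`) are those of the problem for `G = G_m^n`: subvarieties,
dimension, degree with respect to `O(1, ..., 1)`, obstruction index, essential minimum, saturation,
`Γ`-torsion subvarieties, `Γ`-transverse subvarieties, `K(Γ)`, Lehmer groups, rank.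
-/

namespace Pool.Agent.Results.MP_187c26_nt.NotLehmer

open Pool.Agent.U343.Rem (Qb Torus MulIndep divisionGroup InSaturation IsLehmerGroup)

/-- Let `n ≥ 2`. There are points `a` of `G_m^n` with multiplicatively independent coordinates, and
for each of them the group of all points a positive power of which is a power of `a` has rank one,
contains its saturation, and is not a Lehmer group, over any field `K` of algebraic numbers. -/
theorem result (n : ℕ) (hn : 2 ≤ n) :
    (∃ a : Torus n, MulIndep a) ∧
      ∀ a : Torus n, MulIndep a →
        Pool.Agent.U343.Rem.rank (divisionGroup a) = 1 ∧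
        (∀ x : Torus n, InSaturation (divisionGroup a) x → x ∈ divisionGroup a) ∧
        ∀ K : IntermediateField ℚ Qb, ¬ IsLehmerGroup K (divisionGroup a) :=
  ⟨Pool.Agent.U343.Rem.exists_mulIndep n, fun a ha =>
    ⟨Pool.Agent.U343.Rem.rank_eq_one (by omega) a ha,
      fun x hx => Pool.Agent.U343.Rem.saturated a x hx,
      fun K => Pool.Agent.U343.Rem.not_lehmer hn a ha K⟩⟩

end Pool.Agent.Results.MP_187c26_nt.NotLehmer
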