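import Mathlib
import Pool.Agent.U72.NP.RelRate

/-!
# The relative Lehmer problem over `K(μ_∞)` and the angular discrepancy of the conjugates

Let `z` be an algebraic integer, `z ≠ 0`, not a root of unity. Its minimal polynomial over the field
`ℚ(μ_∞)` of all roots of unity is `F(ω₀, X)` for some monic `F ∈ ℤ[T][X]` and some primitive `m`-th
root of unity `ω₀`; the conjugates of it over `ℚ` are the polynomials `F(ω, X)`, `ω` running over the
primitive `m`-th roots of unity, and their zeros are the conjugates of `z`, divided into packets. Let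
`Δ(ω)` be the angular discrepancy of the packet over `ω`: the root mean square over `0 ≤ x ≤ 1` of
`N(x) - n (1 - x) - b(ω)`, where `n` is the number of zeros of the packet, `N(x)` the number of those
with argument larger than `x` turns and `b(ω)` any real number. (It is not divided by `n`, and the
zeros can be anywhere in the plane.) Let `D` be the mean of `Δ(ω)` over the primitive `m`-th roots of
unity. There is an absolute constant `c > 0` with

  `[K(μ_∞)(z) : K(μ_∞)] * h(z) ≥ (c / [K : ℚ]) / (1 + D) ^ 6`

for all these `z` and all number fields `K ⊆ ℂ`.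

In the terms of Rémond's question this is the case `G = 𝔾_m`, `Γ` = the group of roots of unity,
`V = {z}`: the obstruction index is `ω_{K(Γ)}(V) = [K(μ_∞)(z) : K(μ_∞)]` and the essential minimum is
the height `h(z)`. A sequence of algebraic integers for which Rémond's inequality fails must have
packets of conjugates whose mean angular discrepancy tends to infinity.

Method. By the starting file `RelativeLehmer` it suffices to bound the mean over `ω` of the mean of
`log⁺ |F(ω, x)|` over the unit circle. Up to an error of twice `log M(F(ω, X))` minus half the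
logarithm of `|F(ω, 0)|` this mean does not change when the zeros are projected radially to the circle,
and then `log |F(ω, x) / (x ^ n - 1)|` is the harmonic conjugate of `π` times the difference of the
two counting functions. The mean over `ω` of `log M(F(ω, X))` is `n h(z)`, and the mean of
`log |F(ω, 0)|` is not negative, since the norm of `F(ω₀, 0)` is a nonzero integer.
-/

set_option autoImplicit false

open Polynomial

namespace Pool.Agent.Results.MP_187c26_nt.RelativeDiscrepancy

noncomputable section

/-- the field `ℚ(μ_∞) ⊆ ℂ` generated by all roots of unity -/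
def QAb : IntermediateField ℚ ℂ :=
  IntermediateField.adjoin ℚ {z : ℂ | ∃ n : ℕ, 0 < n ∧ z ^ n = 1}

/-- the polynomial `F(ω, X)`, for `F ∈ ℤ[T][X]` -/
def spec {A : Type*} [CommRing A] (ω : A) (F : ℤ[X][X]) : A[X] :=
  F.map (aeval ω : ℤ[X] →ₐ[ℤ] A).toRingHom

/-- the absolute logarithmic height of an algebraic integer `z`: the logarithm of the Mahler measure
of its minimal polynomial over `ℤ`, divided by the degree -/
def height (z : ℂ) : ℝ :=
  Real.log ((minpoly ℤ z).map (Int.castRingHom ℂ)).mahlerMeasure / (minpoly ℤ z).natDegree

/-- The argument of a complex number in turns, in the interval `[0, 1)`. -/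
def turn (z : ℂ) : ℝ := Int.fract (Complex.arg z / (2 * Real.pi))

/-- The number of the zeros of the complex polynomial `P`, counted with multiplicity, whose argument
is larger than `x` turns. -/
def above (P : ℂ[X]) (x : ℝ) : ℕ := (P.roots.filter (fun z => x < turn z)).card

/-- The angular discrepancy of the zeros of `P` with shift `b`: the root mean square over `[0, 1]` of
`N(x) - n (1 - x) - b`, where `N(x)` is the number of zeros above `x` and `n` the degree. It is not
divided by `n`. -/
def discrepancy (P : ℂ[X]) (b : ℝ) : ℝ :=
  Real.sqrt (∫ x in (0:ℝ)..1, ((above P x : ℝ) - P.natDegree * (1 - x) - b) ^ 2)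

/-- The mean over the primitive `m`-th roots of unity `ω` of the angular discrepancy of the zeros of
`F(ω, X)` with the shift `b ω`. -/
def meanDiscrepancy (m : ℕ) (F : ℤ[X][X]) (b : ℂ → ℝ) : ℝ :=
  (∑ ω ∈ primitiveRoots m ℂ, discrepancy (spec ω F) (b ω)) / Nat.totient m

theorem result : ∃ c : ℝ, 0 < c ∧ ∀ z : ℂ, IsIntegral ℤ z → z ≠ 0 →
    (∀ n : ℕ, 0 < n → z ^ n ≠ 1) →
    (∃ (m : ℕ) (ω₀ : QAb) (F : ℤ[X][X]), 0 < m ∧ IsPrimitiveRoot ω₀ m ∧ F.Monic ∧
      minpoly QAb z = spec ω₀ F) ∧
    ∀ (m : ℕ) (ω₀ : QAb) (F : ℤ[X][X]), 0 < m → IsPrimitiveRoot ω₀ m → F.Monic →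
      minpoly QAb z = spec ω₀ F → ∀ b : ℂ → ℝ,
      ∀ (K : IntermediateField ℚ ℂ) [FiniteDimensional ℚ K],
        c / Module.finrank ℚ K / (1 + meanDiscrepancy m F b) ^ 6 ≤
          (minpoly (K ⊔ QAb : IntermediateField ℚ ℂ) z).natDegree * height z :=
  Pool.Agent.U72.NP.rel_rate

end

end Pool.Agent.Results.MP_187c26_nt.RelativeDiscrepancy
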